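import Pool.Agent.HP25.PS.ZA

/-!
# MP_a325a5_ag: Zilber-Pink for the translates of all subvarieties of all the mixed Shimura varieties
`Y(1)^n × G_m^k` by the integers near multiples of random real numbers of positive Fourier dimension

The Shimura variety `Y(1)^n` is identified with `ℂ^n` by the elliptic modular function. The ambient
variety is `X = Y(1)^n × G_m^k`, with coordinates indexed by `Fin n ⊕ Fin k`. Let `V` be an arbitrary
subset of `X` of dimension at most `m` (`DimLE`), for example any algebraic subvariety. We move `V` by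
Möbius maps `x ↦ ρ_i (x - β_i) / (x - δ_i)` in the modular coordinates and then divide all the
coordinates by positive integers `c_i` (`translate`; for a torus there is no Möbius map and `c⁻¹ V` is
an arbitrary translate of `V` by a point with integral coordinates). `NoAtypical` says that the
Zariski closure of the translate has no atypical intersection with any product `Z × T` of a special
subvariety `Z` of `Y(1)^n` and a torsion coset `T`: every irreducible closed subset `A` of the
intersection satisfies `dim A ≤ dim Z + dim T + m - (n + k)` (the constant coordinates of `Z` may also be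
isogenous to an element of a given finite set `Γ` of complex numbers, or integral over `ℤ[Γ]`, and `T`
may be any coset by a point of the division hull of the group generated by `Γ`).

The integers are `c_i = ∏_l |t_l| ^ e_{l i}` (`move`) where `t` is a vector of `M` integers and the
exponents `e_{l i}` are independent (`Independent`). There are a number `M₀` and a proper closed subset
`R = 0` of `ℂ^n` which depend only on `V`; the Möbius maps are generic with respect to `R` (`Generic`).

Let `x_1, x_2, …` be pairwise independent bounded random real numbers whose laws have Fourier transforms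
of polynomial decay: `|E exp (i u x_l)| ≤ C |u| ^ (- δ)` for all `u` (`Decay`). The laws may be singular,
for example supported by Cantor type sets of measure zero; every set of positive Fourier dimension carries
such measures. For `λ ≥ 1` we consider ALL integers `t_l` in the windows `|t_l - λ x_l| ≤ λ ^ κ`.

**Theorem.** There are `κ_M > 0`, depending only on `C`, `δ`, the bound `A` for the `|x_l|`, and `M`, such
that for `M ≥ M₀`:

1. The probability that for given `λ` there are ANY integers `t_l` with `|t_l - λ x_l| ≤ λ ^ κ_M` and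
   ANY independent exponents for which the translate has an atypical intersection is at most
   `C₂ λ ^ (- κ_M)`; here `C₂` depends on `V`, the Möbius maps, `Γ`, `M`, `C`, `δ` and `A` only.
2. Let `λ_j ≥ 1` be a sequence for which `∑ λ_j ^ (- u)` converges for all `u > 0`, for example
   `λ_j = 2 ^ j`. Almost surely for ALL `n`, `k`, ALL subvarieties `V`, all generic Möbius maps,
   all `Γ`, all `M ≥ M₀` and all choices of `M` different `l`, for all but finitely many `j`, for ALL the
   integral vectors `t` with `|t_l - λ_j x_l| ≤ λ_j ^ κ_M` and ALL independent exponents the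
   translate has no atypical intersections.

Proof. By `MixedTranslates` (starting result) it suffices that every `t_l` has a prime factor `p > D`
which does not divide the others. If the product `r_l` of the prime factors `p > D` of `t_l` is small, then
`t_l` is one of few integers, and each is near `λ x_l` with a small probability. If it is large but all
these primes divide other coordinates, then `gcd (r_l, t_{l'})` is large for some `l'`; given `t_l`, there
are few possible divisors `r`, and by the decay of the Fourier transform the probability that `λ x_{l'}` is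
close to a multiple of `r` is `O (r ^ (- c) + λ ^ (- c))` (`Pool.Agent.HP25.PS`).
-/

set_option autoImplicit false

namespace Pool.Agent.Results.MP_a325a5_ag.FourierDecay

open Finset MeasureTheory ProbabilityTheory Filter
open Pool.Agent.Results.MP_defd1c_ag.MixedTranslates (DimLE NoAtypical translate Independent)

/-- The positive integers `c_i = ∏_l |t_l| ^ e_{l i}` (positive if all the `t_l` are not zero). -/
def move {n k M : ℕ} (e : Fin M → Fin n ⊕ Fin k → ℕ) (t : Fin M → ℤ) : Fin n ⊕ Fin k → ℕ :=
  fun i => ∏ l : Fin M, (t l).natAbs ^ e l i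

/-- The Möbius maps with zeros `β`, poles `δ` and factors `ρ` are generic with respect to `R`: none of
the `2 ^ n` points with coordinates `β i` or `δ i` is on the hypersurface `R = 0`. -/
def Generic {n : ℕ} (R : MvPolynomial (Fin n) ℂ) (β δ ρ : Fin n → ℂ) : Prop :=
  (∀ i, β i ≠ δ i) ∧ (∀ i, ρ i ≠ 0) ∧
    ∀ s : Fin n → ℂ, (∀ i, s i = β i ∨ s i = δ i) → MvPolynomial.eval s R ≠ 0

/-- The random number `x` is bounded by `A` and its law has a Fourier transform of polynomial decay. -/
def Decay {Ω : Type} [MeasurableSpace Ω] (P : Measure Ω) (C δ A : ℝ) (x : Ω → ℝ) : Prop :=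
  (∀ᵐ ω ∂P, |x ω| ≤ A) ∧ ∀ u : ℝ, ‖charFun (P.map x) u‖ * |u| ^ δ ≤ C

theorem result :
    ∃ (M₀ : ∀ n k : ℕ, ℕ → Set (Fin n ⊕ Fin k → ℂ) → ℕ)
      (R : ∀ n k : ℕ, ℕ → Set (Fin n ⊕ Fin k → ℂ) → MvPolynomial (Fin n) ℂ),
      (∀ n k m V, R n k m V ≠ 0) ∧
      ∀ C δ A : ℝ, 0 < δ → ∃ κ : ℕ → ℝ, (∀ M, 0 < κ M) ∧
        -- 1. the probability of the exceptional vectors
        (∀ (n k m : ℕ) (V : Set (Fin n ⊕ Fin k → ℂ)), DimLE m V →
          ∀ β δ' ρ : Fin n → ℂ, Generic (R n k m V) β δ' ρ → ∀ (Γ : Finset ℂ) (M : ℕ), M₀ n k m V ≤ M →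
          ∃ C₂ : ℝ, ∀ (Ω : Type) [MeasurableSpace Ω] (P : Measure Ω) [IsProbabilityMeasure P]
            (x : Fin M → Ω → ℝ), (∀ l, Measurable (x l)) → (∀ l l', l ≠ l' → IndepFun (x l) (x l') P) →
            (∀ l, Decay P C δ A (x l)) → ∀ lam : ℝ, 1 ≤ lam →
            P {ω | ∃ t : Fin M → ℤ, (∀ l, |(t l : ℝ) - lam * x l ω| ≤ lam ^ κ M) ∧
              ∃ e : Fin M → Fin n ⊕ Fin k → ℕ, Independent e ∧
                ¬ NoAtypical Γ m (translate V β δ' ρ (move e t))} ≤ ENNReal.ofReal (C₂ * lam ^ (-κ M))) ∧
        -- 2. one null set for all subvarieties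
        ∀ (Ω : Type) [MeasurableSpace Ω] (P : Measure Ω) [IsProbabilityMeasure P] (x : ℕ → Ω → ℝ),
          (∀ l, Measurable (x l)) → (∀ l l', l ≠ l' → IndepFun (x l) (x l') P) →
          (∀ l, Decay P C δ A (x l)) → ∀ lam : ℕ → ℝ, (∀ j, 1 ≤ lam j) →
          (∀ u : ℝ, 0 < u → Summable fun j => lam j ^ (-u)) →
          ∀ᵐ ω ∂P, ∀ (n k m : ℕ) (V : Set (Fin n ⊕ Fin k → ℂ)), DimLE m V →
            ∀ β δ' ρ : Fin n → ℂ, Generic (R n k m V) β δ' ρ → ∀ (Γ : Finset ℂ) (M : ℕ), M₀ n k m V ≤ M →
            ∀ φ : Fin M → ℕ, Function.Injective φ → ∀ᶠ j in atTop, ∀ t : Fin M → ℤ,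
              (∀ l, |(t l : ℝ) - lam j * x (φ l) ω| ≤ lam j ^ κ M) →
              ∀ e : Fin M → Fin n ⊕ Fin k → ℕ, Independent e →
                NoAtypical Γ m (translate V β δ' ρ (move e t)) := by
  obtain ⟨M₀, R, hR, hcrit⟩ := Pool.Agent.HP25.PS.crit
  refine ⟨M₀, R, hR, fun C δ A hδ => ?_⟩
  obtain ⟨κ, hκ, hp⟩ := Pool.Agent.HP25.PS.prob_sep C δ A hδ
  refine ⟨κ, hκ, ?_, ?_⟩
  · intro n k m V hV β δ' ρ hgen Γ M hM
    obtain ⟨D, hD⟩ := hcrit n k m V hV β δ' ρ hgen.1 hgen.2.1 hgen.2.2 Γ
    obtain ⟨C₂, hC₂, h⟩ := hp D M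
    refine ⟨C₂, fun Ω _ P _ x hx hind hdec lam hlam => ?_⟩
    refine le_trans (measure_mono ?_) (h P x hx hind (fun l => (hdec l).2) (fun l => (hdec l).1) lam hlam)
    rintro ω ⟨t, ht, e, he, hbad⟩
    exact ⟨t, ht, fun hsep => hbad (hD M hM t hsep e he)⟩
  · intro Ω _ P _ x hx hind hdec lam hlam hsum
    have h := Pool.Agent.HP25.PS.ae_sep_of (C := C) (δ := δ) (A := A) hκ (fun D M => hp D M) P x hx hind
      (fun l => (hdec l).2) (fun l => (hdec l).1) lam hlam hsum
    filter_upwards [h] with ω hω
    intro n k m V hV β δ' ρ hgen Γ M hM φ hφ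
    obtain ⟨D, hD⟩ := hcrit n k m V hV β δ' ρ hgen.1 hgen.2.1 hgen.2.2 Γ
    filter_upwards [hω M φ hφ D] with j hj t ht e he
    exact hD M hM t (hj t ht) e he

end Pool.Agent.Results.MP_a325a5_ag.FourierDecay
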