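import Pool.Agent.HP25.TW.G
import Pool.Agent.Results.MP_a325a5_ag.RandomOrbits

/-!
# MP_a325a5_ag: Zilber-Pink for the translates of all subvarieties of all the mixed Shimura varieties
`Y(1)^n × G_m^k` by the prefixes of normal numbers, along equidistributed and metric sequences, and by
random sums

The Shimura variety `Y(1)^n` is identified with `ℂ^n` by the elliptic modular function. The ambient
variety is `X = Y(1)^n × G_m^k`, with coordinates indexed by `Fin n ⊕ Fin k`. Let `V` be an arbitrary
subset of `X` of dimension at most `m` (`DimLE`), for example any algebraic subvariety. We move `V` by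
Möbius maps `x ↦ ρ_i (x - β_i) / (x - δ_i)` in the modular coordinates and then divide all the
coordinates by positive integers `c_i` (`translate`; for a torus there is no Möbius map and `c⁻¹ V` is
an arbitrary translate of `V` by a point with integral coordinates). As in the starting result
`RandomOrbits` (whose definitions are used) the integers are `c_i = ∏_l |x_l| ^ e_{l i}` (`move`) where
`x` is an integral vector with `M` coordinates and the exponents `e_{l i}` are independent
(`Independent`). There are a number `M₀` and a proper closed subset `R = 0` of `ℂ^n` which depend only on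
`V`, such that the following holds for all `M ≥ M₀` if the zeros and poles of the Möbius maps are
generic (`Generic`: none of the `2 ^ n` points with coordinates `s_i ∈ {β_i, δ_i}` is on `R = 0`).

A sequence `x_0, x_1, …` of integral vectors with `M` coordinates is good (`Good`) if there is ONE set
`E` of indices of density zero such that for ALL `n`, `k`, `V` (with `M₀ ≤ M`), all the generic Möbius
maps and all finite sets `Γ` of complex numbers, for all but finitely many `t ∉ E` and for ALL
independent exponents the translate `c⁻¹ g V`, `c_i = ∏_l |x_{t,l}| ^ e_{l i}`, has no atypical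
intersection with any product `Z × T` of a special subvariety `Z` of `Y(1)^n` and a torsion coset `T`: every
irreducible closed subset `A` of the intersection of its Zariski closure with `Z × T` satisfies
`dim A ≤ dim Z + dim T + m - (n + k)`. More generally the constant coordinates of `Z` may be isogenous
to an element of `Γ`, or integral over `ℤ[Γ]`, and `T` may be any coset of an algebraic subgroup by a
point of the division hull of the group generated by `Γ`.

**Theorem.**

0. Every sequence of integral vectors which for some `M'` is uniformly distributed modulo all `q` prime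
   to `M'` is good.
1. (Random sums, uniformly.) Let `d_{ij}` be independent random integers, `|d_{ij}| ≤ D`, with arbitrary
   distributions, only no value has a probability larger than `1 - η`. Let `γ_{ij} ≠ 0` be ANY integers
   without prime factors larger than `D`, and `u_i` any integers. For all `V`, generic Möbius maps and
   `Γ` as above, with a probability larger than `1 - ε` the translates as above for
   `x = (u_i + ∑_{j < K} γ_{ij} d_{ij})_i` and ALL independent exponents have no atypical intersections, if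
   `K ≥ K₀`, where `K₀` depends only on `n`, `k`, `m`, `V`, the Möbius maps, `Γ`, `M`, `ε`, `D`, `η`. For example
   the digits of given integers are replaced by random digits in `K` arbitrary places.
2. (Almost surely.) For `d_{ij}` as in 1, ANY such integers `γ_{nij}` and any integers `u_{ni}` the sequence
   `x_n = (u_{ni} + ∑_{j < n} γ_{nij} d_{ij})_i` is almost surely good, for example the truncations of an
   infinite sequence of digits in both orders.
3. (Normal numbers.) Let the vector `α` of real numbers be normal to the base `b` (`Normal`). Then the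
   sequence `⌊b ^ n α_i⌋` of its prefixes is good. The condition on `α` does not depend on `V`.
4. (Fourier decay.) Let `ν` be a finite measure on `ℝ ^ M` with `|ν^(ξ)| ≤ C |ξ| ^ (-δ)`, `δ > 0` arbitrarily
   small, let `a_{i0}, a_{i1}, …` be ANY sequences of real numbers with mutual distances at least
   `δ₀ > 0`, and let `β_{in}` be any real numbers. Then `⌊a_{in} α_i + β_{in}⌋` is good for `ν`-almost all `α`.

The starting results and the other results about this problem of this kind are about boxes, random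
orbits of groups of matrices, windows at random digit integers (with one factor `B ^ j` per digit, all
digits random) and windows at `N_j ξ` for `N_j` growing exponentially.

Proof. By the starting result the exceptional vectors are in one of countably many pronull sets. Pronull
sets are avoided by the sequences which are uniformly distributed modulo all `q` prime to `M'`
(`Pool.Agent.HP25.TW`: Wall's theorem for 3, second moments for 2 and 4), and a diagonal argument gives one
set `E`.
-/

set_option autoImplicit false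

namespace Pool.Agent.Results.MP_a325a5_ag.NormalNumbers

open Filter MeasureTheory ProbabilityTheory Topology
open Pool.Agent.Results.MP_defd1c_ag.MixedTranslates (DimLE NoAtypical translate Independent)
open Pool.Agent.Results.MP_a325a5_ag.RandomOrbits (move Generic Null)

/-- the translates of `V` by the products of powers of the coordinates of `x`, with all independent
exponents, have no atypical intersections -/
def GoodFor {n k M : ℕ} (m : ℕ) (V : Set (Fin n ⊕ Fin k → ℂ)) (β δ ρ : Fin n → ℂ) (Γ : Finset ℂ) (x : Fin M → ℤ) : Prop :=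
  ∀ e : Fin M → Fin n ⊕ Fin k → ℕ, Independent e → NoAtypical Γ m (translate V β δ ρ (move e x))

/-- One set of indices of density zero for all `V`, all generic Möbius maps and all `Γ`. -/
def Good (M₀ : ∀ n k : ℕ, ℕ → Set (Fin n ⊕ Fin k → ℂ) → ℕ)
    (R : ∀ n k : ℕ, ℕ → Set (Fin n ⊕ Fin k → ℂ) → MvPolynomial (Fin n) ℂ) {M : ℕ} (x : ℕ → Fin M → ℤ) : Prop :=
  ∃ E : Set ℕ, Null E ∧ ∀ (n k m : ℕ) (V : Set (Fin n ⊕ Fin k → ℂ)), DimLE m V → M₀ n k m V ≤ M →
    ∀ β δ ρ : Fin n → ℂ, Generic (R n k m V) β δ ρ → ∀ Γ : Finset ℂ, {t : ℕ | t ∉ E ∧ ¬ GoodFor m V β δ ρ Γ (x t)}.Finite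

/-- for all `q` prime to `M` the vectors `c 0, c 1, …` are uniformly distributed modulo `q` -/
def Equidistributed {ι : Type} [Fintype ι] (M : ℕ) (c : ℕ → ι → ℤ) : Prop :=
  ∀ q : ℕ, 0 < q → q.Coprime M → ∀ r : ι → ZMod q,
    Tendsto (fun N : ℕ => (({n : ℕ | n < N ∧ (fun i => (c n i : ZMod q)) = r}.ncard : ℕ) : ℝ) / (N : ℝ)) atTop
      (𝓝 (((q : ℝ) ^ Fintype.card ι)⁻¹))

/-- the `d i j` are independent random integers of absolute value at most `D`, and no value has a
probability larger than `1 - η` -/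
structure Digits {ι Ω : Type} [MeasurableSpace Ω] (P : Measure Ω) (D : ℕ) (η : ℝ) (d : ι → ℕ → Ω → ℤ) : Prop where
  meas : ∀ i j, Measurable (d i j)
  indep : iIndepFun (fun ij : ι × ℕ => d ij.1 ij.2) P
  bdd : ∀ i j ω, |d i j ω| ≤ D
  atom : ∀ i j a, P.real {ω | d i j ω = a} ≤ 1 - η

/-- `γ` is not zero and has no prime factor larger than `D` -/
def Smooth (D : ℕ) (γ : ℤ) : Prop := γ ≠ 0 ∧ ∀ p : ℕ, p.Prime → (p : ℤ) ∣ γ → p ≤ D

/-- the random vector with the components `u i + ∑_{j < K} γ i j * d i j` -/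
def rsum {ι Ω : Type} (u : ι → ℤ) (γ : ι → ℕ → ℤ) (K : ℕ) (d : ι → ℕ → Ω → ℤ) (ω : Ω) (i : ι) : ℤ :=
  u i + ∑ j ∈ Finset.range K, γ i j * d i j ω

/-- `exp (2 π i x)` -/
noncomputable def e (x : ℝ) : ℂ := Complex.exp (2 * Real.pi * x * Complex.I)

/-- The vector `α` is normal to the base `b`: the sequence `b ^ n α` is uniformly distributed modulo `1`
(Weyl's criterion). -/
def Normal {ι : Type} [Fintype ι] (b : ℕ) (α : ι → ℝ) : Prop :=
  ∀ h : ι → ℤ, h ≠ 0 →
    Tendsto (fun N : ℕ => (1 / (N : ℂ)) * ∑ n ∈ Finset.range N, e (∑ i, (h i : ℝ) * ((b : ℝ) ^ n * α i))) atTop (𝓝 0)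

/-- the Fourier transform of `ν` has power decay (in the maximum norm) -/
def FourierDecay {ι : Type} [Fintype ι] (ν : Measure (ι → ℝ)) : Prop :=
  ∃ C δ : ℝ, 0 < δ ∧ ∀ ξ : ι → ℝ, ξ ≠ 0 → ‖∫ α, e (∑ i, ξ i * α i) ∂ν‖ ≤ C * ‖ξ‖ ^ (-δ)

theorem result :
    ∃ (M₀ : ∀ n k : ℕ, ℕ → Set (Fin n ⊕ Fin k → ℂ) → ℕ)
      (R : ∀ n k : ℕ, ℕ → Set (Fin n ⊕ Fin k → ℂ) → MvPolynomial (Fin n) ℂ),
      (∀ n k m V, R n k m V ≠ 0) ∧ ∀ M : ℕ,
      -- 0. equidistributed sequences
      (∀ (M' : ℕ) (x : ℕ → Fin M → ℤ), 0 < M' → Equidistributed M' x → Good M₀ R x) ∧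
      -- 1. random sums, uniformly
      (∀ (n k m : ℕ) (V : Set (Fin n ⊕ Fin k → ℂ)), DimLE m V → M₀ n k m V ≤ M →
        ∀ β δ ρ : Fin n → ℂ, Generic (R n k m V) β δ ρ → ∀ (Γ : Finset ℂ) (D : ℕ) (η ε : ℝ), 0 < η → 0 < ε →
        ∃ K₀ : ℕ, ∀ K ≥ K₀, ∀ (Ω : Type) [MeasurableSpace Ω] (P : Measure Ω) [IsProbabilityMeasure P]
          (d : Fin M → ℕ → Ω → ℤ), Digits P D η d → ∀ γ : Fin M → ℕ → ℤ, (∀ i, ∀ j < K, Smooth D (γ i j)) →
          ∀ u : Fin M → ℤ, P.real {ω | ¬ GoodFor m V β δ ρ Γ (rsum u γ K d ω)} ≤ ε) ∧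
      -- 2. almost surely
      (∀ (Ω : Type) [MeasurableSpace Ω] (P : Measure Ω) [IsProbabilityMeasure P] (D : ℕ) (η : ℝ)
        (d : Fin M → ℕ → Ω → ℤ), 0 < η → Digits P D η d → ∀ γ : ℕ → Fin M → ℕ → ℤ, (∀ n i, ∀ j < n, Smooth D (γ n i j)) →
        ∀ u : ℕ → Fin M → ℤ, ∀ᵐ ω ∂P, Good M₀ R fun n => rsum (u n) (γ n) n d ω) ∧
      -- 3. normal numbers
      (∀ (b : ℕ) (α : Fin M → ℝ), 2 ≤ b → Normal b α → Good M₀ R fun n i => ⌊(b : ℝ) ^ n * α i⌋) ∧
      -- 4. Fourier decay
      (∀ (ν : Measure (Fin M → ℝ)) [IsFiniteMeasure ν], FourierDecay ν → ∀ (a : Fin M → ℕ → ℝ) (δ₀ : ℝ), 0 < δ₀ →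
        (∀ i m n, m ≠ n → δ₀ ≤ |a i m - a i n|) → ∀ β : Fin M → ℕ → ℝ,
        ∀ᵐ α ∂ν, Good M₀ R fun n i => ⌊a i n * α i + β i n⌋) := by
  classical
  obtain ⟨M₀, R, hR, hmain⟩ := Pool.Agent.Results.MP_a325a5_ag.RandomOrbits.result
  refine ⟨M₀, R, hR, fun M => ?_⟩
  obtain ⟨⟨B, hB, hcrit⟩, -⟩ := hmain M
  have hfree : ∀ {Ω : Type} [MeasurableSpace Ω] {P : Measure Ω} {D : ℕ} {η : ℝ} {d : Fin M → ℕ → Ω → ℤ},
      Digits P D η d → Pool.Agent.HP25.TW.Free P D η d := fun h => ⟨h.meas, h.indep, h.bdd, h.atom⟩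
  have good_of : ∀ (M' : ℕ) (x : ℕ → Fin M → ℤ), 0 < M' → Pool.Agent.HP25.TW.Equi M' x → Good M₀ R x := by
    intro M' x hM' hx
    obtain ⟨E, hE, h1⟩ := hx.oneSet hB hM'
    refine ⟨E, hE, fun n k m V hV hM β δ ρ hg Γ => ?_⟩
    obtain ⟨D, hD⟩ := hcrit n k m V hV hM β δ ρ hg Γ
    refine (h1 D).subset ?_
    rintro t ⟨ht, hbad⟩
    refine ⟨ht, ?_⟩
    by_contra hn
    exact hbad (hD _ hn)
  refine ⟨fun M' x hM' hx => good_of M' x hM' (Pool.Agent.HP25.TW.equi_tendsto x hx), ?_, ?_, ?_, ?_⟩
  · intro n k m V hV hM β δ ρ hg Γ D η ε hη hε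
    obtain ⟨D', hD⟩ := hcrit n k m V hV hM β δ ρ hg Γ
    obtain ⟨K₀, hK₀⟩ := Pool.Agent.HP25.TW.small (hB D') D hη hε
    refine ⟨K₀, fun K hK Ω _ P _ d hd γ hγ u => ?_⟩
    refine (measureReal_mono ?_ (measure_ne_top P _)).trans (hK₀ K hK Ω P d (hfree hd) γ hγ u)
    intro ω hω
    by_contra hn
    exact hω (hD _ hn)
  · intro Ω _ P _ D η d hη hd γ hγ u
    filter_upwards [Pool.Agent.HP25.TW.ae_sums (hfree hd) hη γ hγ u] with ω hω
    exact good_of _ _ (Nat.factorial_pos _) hω
  · intro b α hb hα
    exact good_of _ _ one_pos (Pool.Agent.HP25.TW.normal hb hα)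
  · intro ν _ hν a δ₀ hδ₀ ha β
    filter_upwards [Pool.Agent.HP25.TW.decay hν a hδ₀ ha β] with α hα
    exact good_of _ _ one_pos hα

end Pool.Agent.Results.MP_a325a5_ag.NormalNumbers
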