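import Pool.Agent.HP25.PS.ZA
import Pool.Agent.HP25.PS.G

/-!
# MP_a325a5_ag: Zilber-Pink for the translates of all subvarieties of all the mixed Shimura varieties
`Y(1)^n × G_m^k` by integers with random or restricted digits

The Shimura variety `Y(1)^n` is identified with `ℂ^n` by the elliptic modular function. The ambient
variety is `X = Y(1)^n × G_m^k`, with coordinates indexed by `Fin n ⊕ Fin k`. Let `V` be an arbitrary
subset of `X` of dimension at most `m` (`DimLE`), for example any algebraic subvariety. We move `V` by
Möbius maps `x ↦ ρ_i (x - β_i) / (x - δ_i)` in the modular coordinates and then divide all the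
coordinates by positive integers `c_i` (`translate`; for a torus there is no Möbius map and `c⁻¹ V` is
an arbitrary translate of `V` by a point with integral coordinates). `NoAtypical` says that the
Zariski closure of the translate has no atypical intersection with any product `Z × T` of a special
subvariety `Z` of `Y(1)^n` and a torsion coset `T`: every irreducible closed subset `A` of the
intersection satisfies `dim A ≤ dim Z + dim T + m - (n + k)` (the constant coordinates of `Z` may also be
isogenous to an element of a given finite set `Γ` of complex numbers, or integral over `ℤ[Γ]`, and `T`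
may be any coset by a point of the division hull of the group generated by `Γ`).

The integers are `c_i = ∏_l |t_l| ^ e_{l i}` (`move`) where `t` is a vector of `M` integers and the
exponents `e_{l i}` are independent (`Independent`). There are a number `M₀` and a proper closed subset
`R = 0` of `ℂ^n` which depend only on `V`; the Möbius maps are generic with respect to `R` (`Generic`).

The starting results treat positive proportions of all integral vectors, polynomial families,
generalised polynomials, and random orbits of linear groups. Here the vectors `t` are in very thin sets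
of a different kind: Let `b ≥ 2`, and let the digits of the integers `x_l < b ^ K` to the base `b` be
chosen at random and independently; the distribution of every single digit is arbitrary, only no digit
may be certain: all the probabilities are at most `1 - η` (`Digits`). For example all digits can be
uniformly distributed on a given set of two digits (integers with restricted digits, Cantor sets); the
distributions may depend on the position of the digit and on `l`.

**Theorem.** There are `κ_M > 0`, depending only on `b`, `η` and `M`, such that for `M ≥ M₀`: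

1. The probability of the vectors `x` for which there are ANY integers `t_l` with
   `|t_l - x_l| ≤ b ^ (κ_M K)` and ANY independent exponents for which the translate has an atypical
   intersection is at most `C b ^ (- κ_M K)`, where `C` depends on `b`, `η`, `V`, the Möbius maps, `Γ`
   and `M` only, and not on the distributions of the digits.
2. Let `X_{l K}` be random integers, `K = 1, 2, …`, whose first `K` digits are random as above, such
   that `X_{l K}` and `X_{l' K}` are independent for `l ≠ l'` (no assumption on the dependence of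
   different `K`; for example the truncations of one infinite sequence of random digits, in either
   order). Then almost surely for ALL `n`, `k`, ALL subvarieties `V`, all generic Möbius maps, all `Γ`,
   all `M ≥ M₀` and all choices of `M` different `l`, for all but finitely many `K`, for ALL the integral
   vectors `t` with `|t_l - X_{l K}| ≤ b ^ (κ_M K)` and ALL independent exponents the translate has no
   atypical intersections.

Proof. By `MixedTranslates` (starting result) it suffices that every `t_l` has a prime factor `p > D`
which does not divide the others. If the product `r_l` of the prime factors `p > D` of `t_l` is small, then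
`t_l` is one of few integers, and each is near `x_l` with a small probability (`Pool.Agent.HP25.PS`).
If it is large but all these primes divide other coordinates, then `gcd (r_l, t_{l'})` is large for some
`l'`; given `t_l`, there are few possible divisors `r`, and by independence the probability that the
random integer `x_{l'}` is close to a multiple of `r` is at most `C (2 h + 1) (1 - η) ^ m`, `b ^ m ≤ r`,
since the `m` lowest digits are determined by the other ones and the residue class modulo `r`.
-/

set_option autoImplicit false

namespace Pool.Agent.Results.MP_a325a5_ag.RandomDigits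

open Finset MeasureTheory ProbabilityTheory Filter
open Pool.Agent.Results.MP_defd1c_ag.MixedTranslates (DimLE NoAtypical translate Independent)

/-- The positive integers `c_i = ∏_l |t_l| ^ e_{l i}` (positive if all the `t_l` are not zero). -/
def move {n k M : ℕ} (e : Fin M → Fin n ⊕ Fin k → ℕ) (t : Fin M → ℤ) : Fin n ⊕ Fin k → ℕ :=
  fun i => ∏ l : Fin M, (t l).natAbs ^ e l i

/-- The Möbius maps with zeros `β`, poles `δ` and factors `ρ` are generic with respect to `R`: none of
the `2 ^ n` points with coordinates `β i` or `δ i` is on the hypersurface `R = 0`. -/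
def Generic {n : ℕ} (R : MvPolynomial (Fin n) ℂ) (β δ ρ : Fin n → ℂ) : Prop :=
  (∀ i, β i ≠ δ i) ∧ (∀ i, ρ i ≠ 0) ∧
    ∀ s : Fin n → ℂ, (∀ i, s i = β i ∨ s i = δ i) → MvPolynomial.eval s R ≠ 0

/-- `w j` is a probability distribution on the digits `0, …, b - 1` for every position `j`, and no digit
has a probability larger than `1 - η`. -/
def Digits (b : ℕ) (η : ℝ) (w : ℕ → ℕ → ℝ) : Prop :=
  ∀ j, (∀ a, 0 ≤ w j a ∧ w j a ≤ 1 - η) ∧ ∑ a ∈ range b, w j a = 1

/-- The probability of the integer `n < b ^ K`, if the digit at the position `j < K` has the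
distribution `w j` and the digits are independent. -/
noncomputable def prob (b : ℕ) (w : ℕ → ℕ → ℝ) (K n : ℕ) : ℝ := ∏ j ∈ range K, w j (n / b ^ j % b)

lemma digits_iff {b : ℕ} {η : ℝ} {w : ℕ → ℕ → ℝ} (h : Digits b η w) : Pool.Agent.TH872.Sq.Dig b η w :=
  ⟨fun i a => ((h i).1 a).1, fun i => (h i).2, fun i a => ((h i).1 a).2⟩

lemma prob_eq (b : ℕ) (w : ℕ → ℕ → ℝ) (K n : ℕ) : prob b w K n = Pool.Agent.TH872.Sq.P b w 0 K n := by
  unfold prob Pool.Agent.TH872.Sq.P
  simp

theorem result :
    ∃ (M₀ : ∀ n k : ℕ, ℕ → Set (Fin n ⊕ Fin k → ℂ) → ℕ)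
      (R : ∀ n k : ℕ, ℕ → Set (Fin n ⊕ Fin k → ℂ) → MvPolynomial (Fin n) ℂ),
      (∀ n k m V, R n k m V ≠ 0) ∧
      ∀ (b : ℕ) (η : ℝ), 2 ≤ b → 0 < η → ∃ κ : ℕ → ℝ, (∀ M, 0 < κ M) ∧
        -- 1. the probability of the exceptional vectors
        (∀ (n k m : ℕ) (V : Set (Fin n ⊕ Fin k → ℂ)), DimLE m V →
          ∀ β δ ρ : Fin n → ℂ, Generic (R n k m V) β δ ρ → ∀ (Γ : Finset ℂ) (M : ℕ), M₀ n k m V ≤ M →
          ∃ C : ℝ, ∀ w : Fin M → ℕ → ℕ → ℝ, (∀ l, Digits b η (w l)) → ∀ (K : ℕ) (B : Finset (Fin M → ℕ)),
            (∀ x ∈ B, (∀ l, x l < b ^ K) ∧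
              ∃ t : Fin M → ℤ, (∀ l, |(t l : ℝ) - x l| ≤ (b : ℝ) ^ (κ M * K)) ∧
                ∃ e : Fin M → Fin n ⊕ Fin k → ℕ, Independent e ∧
                  ¬ NoAtypical Γ m (translate V β δ ρ (move e t))) →
            ∑ x ∈ B, ∏ l, prob b (w l) K (x l) ≤ C * (b : ℝ) ^ (-(κ M * K))) ∧
        -- 2. one null set for all subvarieties
        ∀ (Ω : Type) [MeasurableSpace Ω] (Q : Measure Ω) [IsProbabilityMeasure Q] (X : ℕ → ℕ → Ω → ℕ)
          (w : ℕ → ℕ → ℕ → ℕ → ℝ), (∀ l K, Measurable (X l K)) →
          (∀ K l l', l ≠ l' → IndepFun (X l K) (X l' K) Q) → (∀ l K, Digits b η (w l K)) →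
          (∀ l K n, n < b ^ K → Q.real {ω | X l K ω = n} = prob b (w l K) K n) →
          ∀ᵐ ω ∂Q, ∀ (n k m : ℕ) (V : Set (Fin n ⊕ Fin k → ℂ)), DimLE m V →
            ∀ β δ ρ : Fin n → ℂ, Generic (R n k m V) β δ ρ → ∀ (Γ : Finset ℂ) (M : ℕ), M₀ n k m V ≤ M →
            ∀ φ : Fin M → ℕ, Function.Injective φ → ∀ᶠ K in atTop, ∀ t : Fin M → ℤ,
              (∀ l, |(t l : ℝ) - X (φ l) K ω| ≤ (b : ℝ) ^ (κ M * K)) →
              ∀ e : Fin M → Fin n ⊕ Fin k → ℕ, Independent e →
                NoAtypical Γ m (translate V β δ ρ (move e t)) := by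
  obtain ⟨M₀, R, hR, hcrit⟩ := Pool.Agent.HP25.PS.crit
  refine ⟨M₀, R, hR, fun b η hb hη => ?_⟩
  obtain ⟨c, C', hc, hc1, hC', htame⟩ := Pool.Agent.HP25.PS.tame_dig b hb η hη
  refine ⟨Pool.Agent.HP25.PS.kap c, fun M => Pool.Agent.HP25.PS.kap_pos hc M, ?_, ?_⟩
  · intro n k m V hV β δ ρ hgen Γ M hM
    obtain ⟨D, hD⟩ := hcrit n k m V hV β δ ρ hgen.1 hgen.2.1 hgen.2.2 Γ
    obtain ⟨C, hC, h⟩ := Pool.Agent.HP25.PS.digits_sep hb hc hc1 hC' htame D M
    refine ⟨C, fun w hw K B hB => ?_⟩
    have h1 := h w (fun l => digits_iff (hw l)) K B (fun x hx => ⟨(hB x hx).1, ?_⟩)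
    · simpa only [prob_eq] using h1
    · obtain ⟨_, t, ht, e, he, hbad⟩ := hB x hx
      exact ⟨t, ht, fun hsep => hbad (hD M hM t hsep e he)⟩
  · intro Ω _ Q _ X w hX hind hw hlaw
    have h := Pool.Agent.HP25.PS.digits_ae hb hc hc1 hC' htame Q X hX hind w (fun l K => digits_iff (hw l K))
      (fun l K n hn => by rw [hlaw l K n hn, prob_eq])
    filter_upwards [h] with ω hω
    intro n k m V hV β δ ρ hgen Γ M hM φ hφ
    obtain ⟨D, hD⟩ := hcrit n k m V hV β δ ρ hgen.1 hgen.2.1 hgen.2.2 Γ
    filter_upwards [hω M φ hφ D] with K hK t ht e he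
    exact hD M hM t (hK t ht) e he

end Pool.Agent.Results.MP_a325a5_ag.RandomDigits
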