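import Pool.Agent.Results.MP_a325a5_ag.EllipticSurfaceProducts
import Pool.Agent.Helper93.RA.Core
import Pool.Agent.Helper93.RA.Val

/-!
# MP_a325a5_ag: Zilber-Pink for one-parameter families of curves in `𝓔 × Y(1)^(n-1)` at the good
# rational approximations of all algebraic numbers

The mixed Shimura variety `𝓔 × Y(1)^(n-1)`, `𝓔` the elliptic surface over `Y(1)`, and its special
subvarieties are described as in the starting result `EllipticSurfaceProducts` (the case `k = 0`),
whose definitions are used: its points are given, up to the sign of the point `P` of `𝓔`, by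
`(X_1, …, X_n, U)`, where `X_i` (`i = i₀`) is the `j`-invariant of the elliptic curve `E X_i` and `U` is
the abscissa of `P`. A special subvariety is given by a special subvariety `Z` of `Y(1)^n`, and either
all points `P` (`s = 0`) or torsion points `P` (`s = 1`); its codimension is `(n - dim Z) + s`.

**Families.** Let `V` be an irreducible curve over the algebraic numbers in `ℂ^(n + 1)` (of any genus
and degree), with nonconstant coordinates, such that any two different coordinates `z`, `z'` satisfy
on `V` an equation `∑_{u ≤ a, v ≤ b} g_{uv} z ^ u z' ^ v = 0` with `g_{00}, g_{a0}, g_{0b}, g_{ab} ≠ 0`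
(the zeros and poles of `z` are different from those of `z'`). Let `lam_j`, `mu_j`, `lamU`, `muU` be
polynomials over `ℚ` with `deg mu_j < deg lam_j`, `0 < deg lam_j`, `deg muU < deg lamU`,
`3 ≤ deg lamU`, and let `V_t` be the image of `V` under
`(X, U) ↦ (lam_j (t) X_j + mu_j (t), lamU (t) U + muU (t))`.

`F.ZilberPink t` says that `V_t` has only finitely many points on the special subvarieties of
codimension at least two. As in the starting result the constants of the special subvarieties can also
be integral over `ℤ[Γ]`, `Γ` a finite set of algebraic numbers, and the special subvarieties on which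
`X_i` is constant and `P` is a torsion point (`s = 1`, `cls i₀ = none`) are excluded; points of the
latter type with a CM point `X_i` project to special points of the surface `𝓔`, for which the
Andre-Oort conjecture is known (Andre).

**Theorem.**
1. For every family there is a number `D` such that Zilber-Pink is true for `V_t` for ALL rational
   numbers `t` whose denominators have a prime factor larger than `D`. So there are at most
   `C H ^ (1 + ε)` exceptions of height at most `H` among about `H ^ 2` rational numbers.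
2. For EVERY real irrational algebraic number `α`, all `ε > 0`, `A > 0` and all families Zilber-Pink
   is true for `V_t` for all but finitely many fractions `t = a / b` with
   `|α - a / b| ≤ A b ^ (- 1 - ε)`. So it is true for all but finitely many convergents of the
   continued fraction of `α`, and for all but finitely many of the infinitely many fractions with
   `|α - a / b| < 1 / b ^ 2`.
3. For all `τ > 1` and `A > 0` there is ONE set `E` of real numbers which does not depend on the family,
   of Hausdorff dimension at most `1 / τ`, of measure zero, which contains no algebraic numbers, such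
   that for all real `z` outside `E` and all families Zilber-Pink is true for `V_t` for all but finitely
   many fractions with `|z - a / b| ≤ A b ^ (- τ)`. (The set of the real numbers with infinitely many
   fractions in these windows has dimension `2 / τ` for `τ ≥ 2`, by the theorem of Jarník.)

Proof. For a prime `p > D` which divides the denominator of `t` the numbers `lam_j (t)`, `lamU (t)` have
the valuations `- deg (lam_j) e`, `- deg (lamU) e`, where `e > 0` is the exponent of `p` in the
denominator of `t`, and so the starting result can be applied with one prime. The other `t` are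
the fractions with denominators composed of the primes up to `D`, of which only finitely many are near
to an algebraic number by the theorem of Ridout (`Pool.Agent.TH629.RidM` of the starting library).
-/

set_option autoImplicit false

namespace Pool.Agent.Results.MP_a325a5_ag.RationalApproximations

open Pool.Agent.Results.MP_a325a5_ag.EllipticSurfaceProducts MeasureTheory
open Pool.Agent.Helper93.RA (Smooth)

/-- A one-parameter family of curves in `𝓔 × Y(1)^(n-1)`. -/
structure Family where
  n : ℕ
  i₀ : Fin n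
  I : Ideal (MvPolynomial (Fin (n + 1 + 0)) (algebraicClosure ℚ ℂ))
  prime : I.IsPrime
  nonconst : ∀ (i : Fin (n + 1 + 0)) (c : algebraicClosure ℚ ℂ),
    MvPolynomial.X i - MvPolynomial.C c ∉ I
  general : ∀ i j : Fin (n + 1 + 0), i ≠ j → ∃ (a b : ℕ) (g : ℕ → ℕ → algebraicClosure ℚ ℂ),
    g 0 0 ≠ 0 ∧ g a 0 ≠ 0 ∧ g 0 b ≠ 0 ∧ g a b ≠ 0 ∧
    ∑ u ∈ Finset.range (a + 1), ∑ v ∈ Finset.range (b + 1),
      MvPolynomial.C (g u v) * MvPolynomial.X i ^ u * MvPolynomial.X j ^ v ∈ I
  lam : Fin n → Polynomial ℚ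
  mu : Fin n → Polynomial ℚ
  lamU : Polynomial ℚ
  muU : Polynomial ℚ
  lam_pos : ∀ j, 0 < (lam j).natDegree
  mu_lt : ∀ j, (mu j).degree < (lam j).degree
  lamU_deg : 3 ≤ lamU.natDegree
  muU_lt : muU.degree < lamU.degree
  Γ : Finset ℂ
  alg : ∀ γ ∈ Γ, IsAlgebraic ℚ γ

/-- The member `V_t` of the family: the image of `V` under
`(X, U) ↦ (lam_j (t) X_j + mu_j (t), lamU (t) U + muU (t))`. -/
def Family.member (F : Family) (t : ℚ) : Set (Fin (F.n + 1 + 0) → ℂ) :=
  image F.i₀ F.I (fun j => (F.lam j).eval t) (fun j => (F.mu j).eval t) (F.lamU.eval t)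
    (F.muU.eval t) (fun _ => 1)

/-- The member `V_t` has only finitely many points on the special subvarieties of codimension at
least two, given by `Z` and `s`. -/
def Family.ZilberPink (F : Family) (t : ℚ) : Prop :=
  {x | x ∈ F.member t ∧ ∃ (r s : ℕ) (Z : SpecialVariety (F.Γ : Set ℂ) F.n r),
    s ≤ 1 ∧ (s = 1 → Z.cls F.i₀ ≠ none) ∧ r + 2 ≤ F.n + s ∧
    x ∈ special F.i₀ Z s (⊥ : Submodule ℤ (Fin 0 → ℤ)) (fun _ => 1)}.Finite

/-- one large prime in the denominator is sufficient -/
theorem one_prime (F : Family) : ∃ D : ℕ, ∀ t : ℚ, (∃ p : ℕ, p.Prime ∧ D < p ∧ p ∣ t.den) →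
    F.ZilberPink t := by
  obtain ⟨W, hW⟩ : ∃ W : ℕ, W = ∑ j, (F.lam j).natDegree + F.lamU.natDegree := ⟨_, rfl⟩
  obtain ⟨D, hD⟩ := Pool.Agent.Results.MP_a325a5_ag.EllipticSurfaceProducts.result (K := 1) F.i₀ F.I
    F.prime F.nonconst F.general W F.Γ F.alg le_rfl (Or.inl rfl) (by norm_num)
  choose B hB using Pool.Agent.Helper93.RA.uc_of_large
  refine ⟨D + ∑ j, B (F.lam j) + ∑ j, B (F.mu j) + B F.lamU + B F.muU, ?_⟩
  rintro t ⟨p, hp, hDp, hpt⟩
  have : Fact p.Prime := ⟨hp⟩
  have hl : ∀ j, B (F.lam j) ≤ ∑ j, B (F.lam j) := fun j =>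
    Finset.single_le_sum (f := fun j => B (F.lam j)) (fun _ _ => Nat.zero_le _) (Finset.mem_univ j)
  have hm : ∀ j, B (F.mu j) ≤ ∑ j, B (F.mu j) := fun j =>
    Finset.single_le_sum (f := fun j => B (F.mu j)) (fun _ _ => Nat.zero_le _) (Finset.mem_univ j)
  have hne : ∀ f : Polynomial ℚ, 0 < f.natDegree → f ≠ 0 := by
    rintro f hf rfl
    rw [Polynomial.natDegree_zero] at hf
    omega
  have hlj : ∀ j, (F.lam j).natDegree ≤ W := fun j => by
    have := Finset.single_le_sum (f := fun j => (F.lam j).natDegree) (fun _ _ => Nat.zero_le _)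
      (Finset.mem_univ j)
    rw [hW]
    omega
  have he := Pool.Agent.Helper93.RA.val_pos hpt
  have hU3 := F.lamU_deg
  have hDp' : D < p := by omega
  have hUW : F.lamU.natDegree ≤ W := by
    rw [hW]
    omega
  have hfin := hD (fun j => (F.lam j).eval t) (fun j => (F.mu j).eval t) (F.lamU.eval t)
    (F.muU.eval t) (fun _ => 1) (fun l => Fin.elim0 l)
    ⟨fun _ => p, fun _ => padicValNat p t.den, fun _ => 1, fun _ => F.lamU.natDegree,
      fun _ j => (F.lam j).natDegree, fun _ l => Fin.elim0 l,
      Function.injective_of_subsingleton _, fun S hS l => Fin.elim0 l, fun i =>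
      ⟨hp, hDp', he, one_pos, fun j => ⟨F.lam_pos j, hlj j, ?_, ?_⟩, ⟨?_, ?_, ?_, ?_⟩,
        fun l => Fin.elim0 l⟩⟩
  · refine hfin.subset ?_
    rintro x ⟨hx, r, s, Z, h1, h2, h3, h4⟩
    refine ⟨hx, r, s, Z, ⊥, fun _ => 1, fun l => Fin.elim0 l, h1, h2, ?_, h4⟩
    exact h3.trans (Nat.le_add_right _ _)
  · exact Pool.Agent.Helper93.RA.val_lam (hB _ p hp (by have := hl j; omega))
      (hne _ (F.lam_pos j)) hpt
  · rw [Pool.Agent.Helper93.RA.val_lam (hB _ p hp (by have := hl j; omega))
      (hne _ (F.lam_pos j)) hpt]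
    exact Pool.Agent.Helper93.RA.val_mu (hB _ p hp (by have := hm j; omega)) (F.mu_lt j)
      (F.lam_pos j) hpt
  · exact le_trans hU3 (Nat.le_mul_of_pos_right _ he)
  · exact hUW
  · exact Pool.Agent.Helper93.RA.val_lam (hB _ p hp (by omega)) (hne _ (by omega)) hpt
  · rw [Pool.Agent.Helper93.RA.val_lam (hB _ p hp (by omega)) (hne _ (by omega)) hpt]
    exact Pool.Agent.Helper93.RA.val_mu (hB _ p hp (by omega)) F.muU_lt (by omega) hpt

lemma exists_smooth (F : Family) : ∃ D : ℕ, ∀ t : ℚ, ¬ F.ZilberPink t → t ∈ Smooth D := by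
  obtain ⟨D, hD⟩ := one_prime F
  refine ⟨D, fun t ht p hp hpt => ?_⟩
  by_contra h
  push Not at h
  exact ht (hD t ⟨p, hp, h, hpt⟩)

theorem result :
    -- 1. one large prime in the denominator, and the number of exceptions
    (∀ F : Family, (∃ D : ℕ, ∀ t : ℚ, (∃ p : ℕ, p.Prime ∧ D < p ∧ p ∣ t.den) → F.ZilberPink t) ∧
      ∀ ε : ℝ, 0 < ε → ∃ C : ℝ, ∀ H : ℕ, 1 ≤ H →
        ({t : ℚ | |t.num| ≤ H ∧ t.den ≤ H ∧ ¬ F.ZilberPink t}.ncard : ℝ) ≤
          C * (H : ℝ) ^ (1 + ε)) ∧
    -- 2. algebraic numbers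
    (∀ α : ℝ, IsAlgebraic ℚ α → Irrational α →
      {t : ℚ | |α - t| < 1 / (t.den : ℝ) ^ 2}.Infinite ∧
      ∀ (ε A : ℝ), 0 < ε → 0 < A → ∀ F : Family,
        {t : ℚ | |α - t| ≤ A * (t.den : ℝ) ^ (-1 - ε) ∧ ¬ F.ZilberPink t}.Finite) ∧
    -- 3. all numbers outside of one small set without algebraic numbers
    (∀ τ A : ℝ, 1 < τ → 0 < A → ∃ E : Set ℝ, dimH E ≤ ENNReal.ofReal (1 / τ) ∧ volume E = 0 ∧
      (∀ α ∈ E, ¬ IsAlgebraic ℚ α) ∧
      ∀ z : ℝ, z ∉ E → ∀ F : Family,
        {t : ℚ | |z - t| ≤ A * (t.den : ℝ) ^ (-τ) ∧ ¬ F.ZilberPink t}.Finite) := by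
  refine ⟨fun F => ⟨one_prime F, fun ε hε => ?_⟩, fun α hα hirr =>
    ⟨Real.infinite_rat_abs_sub_lt_one_div_den_sq_of_irrational hirr, fun ε A hε hA F => ?_⟩,
    fun τ A hτ hA => ?_⟩
  · obtain ⟨D, hD⟩ := exists_smooth F
    obtain ⟨C, hC⟩ := Pool.Agent.Helper93.RA.count_smooth D hε
    refine ⟨C, fun H hH => ?_⟩
    obtain ⟨h1, h2⟩ := hC H hH
    refine le_trans ?_ h2
    have hsub : {t : ℚ | |t.num| ≤ H ∧ t.den ≤ H ∧ ¬ F.ZilberPink t} ⊆
        {t : ℚ | |t.num| ≤ H ∧ t.den ≤ H ∧ t ∈ Smooth D} := fun t ht =>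
      ⟨ht.1, ht.2.1, hD t ht.2.2⟩
    exact_mod_cast Set.ncard_le_ncard hsub h1
  · obtain ⟨D, hD⟩ := exists_smooth F
    refine (Pool.Agent.Helper93.RA.ridout_fin D hα hirr (τ := 1 + ε) (by linarith) hA).subset ?_
    rintro t ⟨h1, h2⟩
    refine ⟨hD t h2, ?_⟩
    rwa [show -(1 + ε) = -1 - ε by ring]
  · have hdim := Pool.Agent.Helper93.RA.dim_le (τ := τ) (by linarith) hA
    refine ⟨_, hdim, ?_, ?_, ?_⟩
    · rw [← hausdorffMeasure_real]
      refine hausdorffMeasure_of_dimH_lt (d := 1) (lt_of_le_of_lt hdim ?_)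
      rw [← ENNReal.ofReal_coe_nnreal]
      apply (ENNReal.ofReal_lt_ofReal_iff (by norm_num)).2
      rw [NNReal.coe_one, div_lt_one (by linarith)]
      exact hτ
    · rintro α ⟨D, hD⟩ hα
      by_cases hirr : Irrational α
      · exact hD (Pool.Agent.Helper93.RA.ridout_fin D hα hirr hτ hA)
      · rw [Irrational, not_not] at hirr
        obtain ⟨a, rfl⟩ := hirr
        exact hD ((Pool.Agent.Helper93.RA.rational_fin a hτ hA).subset fun t ht => ht.2)
    · intro z hz F
      obtain ⟨D, hD⟩ := exists_smooth F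
      by_contra h
      refine hz ⟨D, ?_⟩
      refine Set.Infinite.mono ?_ h
      rintro t ⟨h1, h2⟩
      exact ⟨hD t h2, h1⟩

end Pool.Agent.Results.MP_a325a5_ag.RationalApproximations
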